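import Mathlib
import Pool.Agent.H759R2.Kad.Props6

open scoped ComplexOrder InnerProductSpace ComplexConjugate
open Finset

noncomputable section

namespace H759R2.Kad

universe u v

namespace H49Tup

variable {A : Type u} [CStarAlgebra A]

theorem eq_zero_of_star_mul {x : A} (h : star x * x = 0) : x = 0 :=
  CStarRing.star_mul_self_eq_zero_iff x |>.1 h

theorem eq_zero_of_mul_star {x : A} (h : x * star x = 0) : x = 0 :=
  CStarRing.mul_star_self_eq_zero_iff x |>.1 h

theorem tup_mul {n : ℕ} {v : Fin n → A} {p : A} (h : Tup v p) (i : Fin n) : v i * p = v i := by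
  have h1 : star (v i) * v i = p := by simpa using h.rel i i
  have h2 : star (v i - v i * p) * (v i - v i * p) = 0 := by
    rw [star_sub, star_mul, h.pr.1]
    have : (star (v i) - p * star (v i)) * (v i - v i * p) =
        star (v i) * v i - (star (v i) * v i) * p - p * (star (v i) * v i) +
          p * (star (v i) * v i) * p := by noncomm_ring
    rw [this, h1, h.pr.2, h.pr.2]
    abel
  exact (sub_eq_zero.1 (eq_zero_of_star_mul h2)).symm

/-- the tuples under `s` -/
def TT (s : A) (k : ℕ) : Type u :=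
  {v : Fin (k + 1) → A // Tup v (v 0) ∧ ∀ i, s * v i = v i}

/-- the order -/
def rr {s : A} {k : ℕ} (v w : TT s k) : Prop := ∀ i, w.1 i * v.1 0 = v.1 i

theorem rr_refl {s : A} {k : ℕ} (v : TT s k) : rr v v := fun i => tup_mul v.2.1 i

theorem rr_trans {s : A} {k : ℕ} {v w x : TT s k} (h1 : rr v w) (h2 : rr w x) : rr v x := by
  intro i
  calc x.1 i * v.1 0 = x.1 i * (w.1 0 * v.1 0) := by rw [h1 0]
    _ = (x.1 i * w.1 0) * v.1 0 := by rw [mul_assoc]
    _ = w.1 i * v.1 0 := by rw [h2 i]
    _ = v.1 i := h1 i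

theorem tsm {s : A} {k : ℕ} (v : TT s k) (i : Fin (k + 1)) : star (v.1 i) * v.1 i = v.1 0 := by
  simpa using v.2.1.rel i i

theorem t0 {s : A} {k : ℕ} (v : TT s k) : star (v.1 0) = v.1 0 := v.2.1.pr.1

theorem t00 {s : A} {k : ℕ} (v : TT s k) : v.1 0 * v.1 0 = v.1 0 := v.2.1.pr.2

theorem chain_ub (hA : Wst A) {s : A} (k : ℕ) (c : Set (TT s k)) (hc : IsChain rr c) :
    ∃ ub, ∀ a ∈ c, rr a ub := by
  classical
  rcases Set.eq_empty_or_nonempty c with rfl | hne
  · refine ⟨⟨fun _ => 0, ⟨⟨by simp, by simp⟩, by simp⟩, by simp⟩, fun a ha => ?_⟩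
    exact absurd ha (Set.notMem_empty a)
  have comp : ∀ v ∈ c, ∀ w ∈ c, rr v w ∨ rr w v := by
    intro v hv w hw
    by_cases h : v = w
    · subst h; exact Or.inl (rr_refl v)
    · exact hc hv hw h
  let C : Fin (k + 1) → Set A := fun i => {x | ∃ v ∈ c, x = v.1 i}
  have hC : ∀ i, IsChn (C i) := by
    intro i
    refine ⟨?_, ?_, ?_⟩
    · obtain ⟨v, hv⟩ := hne
      exact ⟨v.1 i, v, hv, rfl⟩
    · rintro _ ⟨v, hv, rfl⟩
      change v.1 i * star (v.1 i) * v.1 i = v.1 i
      rw [mul_assoc, tsm, tup_mul v.2.1 i]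
    · rintro _ ⟨v, hv, rfl⟩ _ ⟨w, hw, rfl⟩
      unfold Exd
      rw [tsm, tsm]
      rcases comp v hv w hw with h | h
      · exact Or.inl (h i)
      · exact Or.inr (h i)
  choose V hV using fun i => hA.chain (C i) (hC i)
  have ext : ∀ v ∈ c, ∀ i, V i * v.1 0 = v.1 i := by
    intro v hv i
    have := (hV i).ext (v.1 i) ⟨v, hv, rfl⟩
    unfold Exd at this
    rwa [tsm] at this
  have ann : ∀ i, ∀ a b : A, (∀ v ∈ c, a * v.1 i * b = 0) → a * V i * b = 0 := by
    intro i a b h
    apply (hV i).ann
    rintro _ ⟨v, hv, rfl⟩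
    exact h v hv
  have annl : ∀ i, ∀ a : A, (∀ v ∈ c, a * v.1 i = 0) → a * V i = 0 := by
    intro i a h
    have := ann i a 1 (fun v hv => by rw [h v hv, zero_mul])
    simpa using this
  -- (a)
  have orth0 : ∀ i j, i ≠ j → ∀ v ∈ c, ∀ w ∈ c, star (v.1 i) * w.1 j = 0 := by
    intro i j hij v hv w hw
    rcases comp v hv w hw with h | h
    · rw [← h i, star_mul, mul_assoc, w.2.1.rel i j, if_neg hij, mul_zero]
    · rw [← h j, ← mul_assoc, v.2.1.rel i j, if_neg hij, zero_mul]
  have orth1 : ∀ i j, i ≠ j → star (V i) * V j = 0 := by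
    intro i j hij
    apply annl
    intro v hv
    have h1 : star (v.1 j) * V i = 0 := annl i _ (fun w hw => orth0 j i (Ne.symm hij) v hv w hw)
    have h2 := congrArg star h1
    simpa using h2
  -- (b)
  have b1 : ∀ v ∈ c, V 0 * v.1 0 = v.1 0 := fun v hv => ext v hv 0
  have pi : ∀ i, V i * star (V i) * V i = V i := fun i => (hV i).pi
  have key : ∀ i, ∀ v ∈ c, star (V i) * V i * v.1 0 = v.1 0 := by
    intro i v hv
    have e1 := ext v hv i
    have e2 := congrArg star e1
    rw [star_mul, t0] at e2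
    -- v0 * star (V i) = star (v i)
    have e3 : v.1 0 * (star (V i) * V i) * v.1 0 = v.1 0 := by
      calc v.1 0 * (star (V i) * V i) * v.1 0 = (v.1 0 * star (V i)) * (V i * v.1 0) := by
            noncomm_ring
        _ = star (v.1 i) * v.1 i := by rw [e1, e2]
        _ = v.1 0 := tsm v i
    have e4 : star (V i) * V i * (star (V i) * V i) = star (V i) * V i := by
      calc star (V i) * V i * (star (V i) * V i) = star (V i) * (V i * star (V i) * V i) := by
            noncomm_ring
        _ = _ := by rw [pi]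
    have e5 : star (star (V i) * V i * v.1 0 - v.1 0) * (star (V i) * V i * v.1 0 - v.1 0) = 0 := by
      rw [star_sub, star_mul, star_mul, star_star, t0]
      have : (v.1 0 * (star (V i) * V i) - v.1 0) * (star (V i) * V i * v.1 0 - v.1 0) =
          v.1 0 * (star (V i) * V i * (star (V i) * V i)) * v.1 0 -
          v.1 0 * (star (V i) * V i) * v.1 0 * 1 - v.1 0 * (star (V i) * V i) * v.1 0 +
          v.1 0 * v.1 0 + (v.1 0 * (star (V i) * V i) * v.1 0 -
            v.1 0 * (star (V i) * V i) * v.1 0) := by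
        noncomm_ring
      rw [this, e4, e3, t00]
      noncomm_ring
    exact sub_eq_zero.1 (eq_zero_of_star_mul e5)
  have b2 : ∀ v ∈ c, star (V 0) * v.1 0 = v.1 0 := by
    intro v hv
    calc star (V 0) * v.1 0 = star (V 0) * (V 0 * v.1 0) := by rw [b1 v hv]
      _ = star (V 0) * V 0 * v.1 0 := by rw [mul_assoc]
      _ = v.1 0 := key 0 v hv
  have b3 : star (V 0) * V 0 = V 0 := by
    have := annl 0 (star (V 0) - 1) (fun v hv => by rw [sub_mul, b2 v hv, one_mul, sub_self])
    rw [sub_mul, one_mul] at this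
    exact sub_eq_zero.1 this
  have b4 : star (V 0) = V 0 := by
    have := congrArg star b3
    rw [star_mul, star_star, b3] at this
    exact this.symm
  have b5 : V 0 * V 0 = V 0 := by
    have := b3
    rwa [b4] at this
  -- (c)
  have c1 : ∀ i, star (V i) * V i = V 0 := by
    intro i
    have d1 : star (V i) * V i * V 0 = V 0 := by
      have := annl 0 (star (V i) * V i - 1) (fun v hv => by
        rw [sub_mul, key i v hv, one_mul, sub_self])
      rw [sub_mul, one_mul] at this
      exact sub_eq_zero.1 this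
    have d2 : V i * (1 - V 0) = 0 := by
      have := ann i 1 (1 - V 0) (fun v hv => by
        have f1 : v.1 i = v.1 i * v.1 0 := (tup_mul v.2.1 i).symm
        have f2 : v.1 0 * V 0 = v.1 0 := by
          have := congrArg star (b1 v hv)
          rwa [star_mul, t0, b4] at this
        rw [one_mul, f1, mul_sub, mul_one, mul_assoc, f2, sub_self])
      rwa [one_mul] at this
    have d3 : V i * V 0 = V i := by
      rw [mul_sub, mul_one] at d2
      exact (sub_eq_zero.1 d2).symm
    calc star (V i) * V i = star (V i) * (V i * V 0) := by rw [d3]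
      _ = star (V i) * V i * V 0 := by rw [mul_assoc]
      _ = V 0 := d1
  -- (d)
  have d1 : ∀ i, s * V i = V i := by
    intro i
    have := annl i (s - 1) (fun v hv => by rw [sub_mul, v.2.2 i, one_mul, sub_self])
    rw [sub_mul, one_mul] at this
    exact sub_eq_zero.1 this
  refine ⟨⟨V, ⟨⟨b4, b5⟩, ?_⟩, d1⟩, ?_⟩
  · intro i j
    by_cases h : i = j
    · subst h; rw [if_pos rfl, c1]
    · rw [if_neg h, orth1 i j h]
  · intro v hv i
    exact ext v hv i

theorem main (hA : Wst A) (k : ℕ) (s : A) (hs : Prj s) :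
    ∃ (v : Fin (k + 1) → A) (p : A), Tup v p ∧ v 0 = p ∧ (∀ i, s * v i = v i) ∧
      ∀ (t : Fin (k + 1) → A) (p' : A), Tup t p' →
        (∀ i, (s - ∑ j, v j * star (v j)) * t i = t i) → p' = 0 := by
  obtain ⟨m, hm⟩ := exists_maximal_of_chains_bounded (r := rr (s := s) (k := k))
    (fun c hc => chain_ub hA k c hc) (fun {a b c} h1 h2 => rr_trans h1 h2)
  obtain ⟨v, hT, hsv⟩ := m
  refine ⟨v, v 0, hT, rfl, hsv, ?_⟩
  intro t p' ht hR
  have hvs : ∀ j, star (v j) * s = star (v j) := by
    intro j
    have := congrArg star (hsv j)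
    rwa [star_mul, hs.1] at this
  have hv1 : ∀ j, star (v j) * (s - ∑ l, v l * star (v l)) = 0 := by
    intro j
    rw [mul_sub, hvs, Finset.mul_sum]
    have : ∀ l ∈ (Finset.univ : Finset (Fin (k + 1))), star (v j) * (v l * star (v l)) =
        if j = l then v 0 * star (v l) else 0 := by
      intro l _
      rw [← mul_assoc, hT.rel j l]
      split_ifs <;> simp
    rw [Finset.sum_congr rfl this, Finset.sum_ite_eq]
    simp only [Finset.mem_univ, if_true]
    have h2 := congrArg star (tup_mul hT j)
    rw [star_mul, hT.pr.1] at h2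
    rw [h2, sub_self]
  have hvt : ∀ j i, star (v j) * t i = 0 := by
    intro j i
    rw [← hR i, ← mul_assoc, hv1, zero_mul]
  have htv : ∀ j i, star (t i) * v j = 0 := by
    intro j i
    have := congrArg star (hvt j i)
    simpa using this
  have hst : ∀ i, s * t i = t i := by
    intro i
    have h1 : s * (s - ∑ l, v l * star (v l)) = s - ∑ l, v l * star (v l) := by
      rw [mul_sub, hs.2, Finset.mul_sum]
      congr 1
      refine Finset.sum_congr rfl fun l _ => ?_
      rw [← mul_assoc, hsv]
    calc s * t i = s * ((s - ∑ l, v l * star (v l)) * t i) := by rw [hR i]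
      _ = (s * (s - ∑ l, v l * star (v l))) * t i := by rw [mul_assoc]
      _ = t i := by rw [h1, hR i]
  have htp : ∀ i, t i * p' = t i := fun i => tup_mul ht i
  set f : A := t 0 * star (t 0) with hf
  have hfs : star f = f := by rw [hf, star_mul, star_star]
  have hv0f : v 0 * f = 0 := by
    have := hvt 0 0
    rw [hT.pr.1] at this
    rw [hf, ← mul_assoc, this, zero_mul]
  have hfv0 : f * v 0 = 0 := by
    rw [hf, mul_assoc, htv 0 0, mul_zero]
  have hff : f * f = f := by
    have h0 : star (t 0) * t 0 = p' := by simpa using ht.rel 0 0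
    calc f * f = t 0 * (star (t 0) * t 0) * star (t 0) := by rw [hf]; noncomm_ring
      _ = f := by rw [h0, htp]
  let w : Fin (k + 1) → A := fun i => v i + t i * star (t 0)
  have hw0 : w 0 = v 0 + f := rfl
  have hwT : Tup w (w 0) := by
    refine ⟨⟨?_, ?_⟩, ?_⟩
    · rw [hw0, star_add, hT.pr.1, hfs]
    · rw [hw0, add_mul, mul_add, mul_add, hT.pr.2, hv0f, hfv0, hff]
      simp
    · intro i j
      have e1 : star (w i) * w j = star (v i) * v j + (star (v i) * t j) * star (t 0) +
          t 0 * (star (t i) * v j) + t 0 * (star (t i) * t j) * star (t 0) := by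
        change star (v i + t i * star (t 0)) * (v j + t j * star (t 0)) = _
        rw [star_add, star_mul, star_star]
        noncomm_ring
      rw [e1, hvt, htv, hT.rel, ht.rel, hw0]
      split_ifs with h
      · rw [htp]; simp [hf]
      · simp
  have hws : ∀ i, s * w i = w i := by
    intro i
    change s * (v i + t i * star (t 0)) = v i + t i * star (t 0)
    rw [mul_add, hsv, ← mul_assoc, hst]
  have h1 := hm ⟨w, hwT, hws⟩ (by
    intro i
    change (v i + t i * star (t 0)) * v 0 = v i
    rw [add_mul, tup_mul hT i, mul_assoc, htv 0 0, mul_zero, add_zero])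
  have h2 : v 0 * w 0 = w 0 := h1 0
  rw [hw0, mul_add, hv0f, hT.pr.2] at h2
  have h3 : f = 0 := by
    have := h2.symm
    simpa using this
  have h4 : t 0 = 0 := eq_zero_of_mul_star h3
  have h5 : star (t 0) * t 0 = p' := by simpa using ht.rel 0 0
  rw [← h5, h4, mul_zero]

end H49Tup

theorem prove6_tup : W_tup.{u} := by
  intro A _ hA k s hs
  exact H49Tup.main hA k s hs

end H759R2.Kad
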